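import Mathlib

/-!
# MP_7f8e47_co, Q1: Player 2 wins the Tribonacci game on `n` for every `n ≥ 7`
-/

namespace Pool.Agent.Results.MP_7f8e47_co.PlayerTwoWins

/-- The sequence `S₁ = 1, S₂ = 2, S₃ = 4, S_{i+1} = S_i + S_{i-1} + S_{i-2}` (`i ≥ 3`).  The value
at `0` is a dummy, it is never used by the moves below. -/
def S : ℕ → ℕ
  | 0 => 0
  | 1 => 1
  | 2 => 2
  | 3 => 4
  | (n + 4) => S (n + 3) + S (n + 2) + S (n + 1)

/-- The moves of the Tribonacci game; positions are finite multisets of terms. -/
inductive Move : Multiset ℕ → Multiset ℕ → Prop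
  | rule1 (M : Multiset ℕ) (i : ℕ) (hi : 3 ≤ i) :
      Move (M + {S (i - 2), S (i - 1), S i}) (M + {S (i + 1)})
  | rule2 (M : Multiset ℕ) : Move (M + {S 1, S 1, S 2}) (M + {S 3})
  | rule3 (M : Multiset ℕ) : Move (M + {S 1, S 1}) (M + {S 2})
  | rule4 (M : Multiset ℕ) : Move (M + {S 2, S 2}) (M + {S 3})
  | rule5 (M : Multiset ℕ) : Move (M + {S 3, S 3}) (M + {S 4, S 1})
  | rule6 (M : Multiset ℕ) (i : ℕ) (hi : 4 ≤ i) :
      Move (M + {S i, S i}) (M + {S (i + 1), S (i - 3)})

/-- `Winning true A`: the player who is to move at `A` has a winning strategy.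
`Winning false A`: the player who is not to move at `A` has a winning strategy.
(The player making the last move wins.) -/
inductive Winning : Bool → Multiset ℕ → Prop
  | mover {A B : Multiset ℕ} (h : Move A B) (hB : Winning false B) : Winning true A
  | other {A : Multiset ℕ} (h : ∀ B, Move A B → Winning true B) : Winning false A

/-- Player 1 has a winning strategy in the Tribonacci game on `n`. -/
def Player1Wins (n : ℕ) : Prop := Winning true (Multiset.replicate n (S 1))

/-- Player 2 has a winning strategy in the Tribonacci game on `n`. -/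
def Player2Wins (n : ℕ) : Prop := Winning false (Multiset.replicate n (S 1))

theorem S_rec {i : ℕ} (hi : 3 ≤ i) : S (i + 1) = S i + S (i - 1) + S (i - 2) := by
  obtain ⟨k, rfl⟩ := Nat.exists_eq_add_of_le hi
  have e1 : 3 + k + 1 = k + 4 := by omega
  have e2 : 3 + k = k + 3 := by omega
  have e3 : 3 + k - 1 = k + 2 := by omega
  have e4 : 3 + k - 2 = k + 1 := by omega
  rw [e3, e4, e1, e2, S]

theorem S_pos : ∀ {i : ℕ}, 1 ≤ i → 1 ≤ S i
  | 1, _ => le_rfl
  | 2, _ => by decide
  | 3, _ => by decide
  | (n + 4), _ => by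
    have := S_pos (i := n + 3) (by omega)
    rw [S]; omega

theorem S_ge7 : ∀ {i : ℕ}, 4 ≤ i → 7 ≤ S i
  | 4, _ => by decide
  | (n + 5), _ => by
    have h1 : n + 5 = (n + 4) + 1 := rfl
    rcases Nat.eq_zero_or_pos n with rfl | hn
    · decide
    · have := S_ge7 (i := n + 4) (by omega)
      rw [h1, S_rec (by omega)]; omega

theorem S_ge13 {i : ℕ} (hi : 5 ≤ i) : 13 ≤ S i := by
  obtain ⟨k, rfl⟩ := Nat.exists_eq_add_of_le hi
  rcases Nat.eq_zero_or_pos k with rfl | hk
  · decide
  · have h1 := S_ge7 (i := 4 + k) (by omega)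
    have h2 := S_ge7 (i := 3 + k) (by omega)
    have h3 : 5 + k = (4 + k) + 1 := by omega
    rw [h3, S_rec (by omega)]
    have : 4 + k - 1 = 3 + k := by omega
    rw [this]
    omega

theorem two_S {i : ℕ} (hi : 4 ≤ i) : S (i + 1) + S (i - 3) = S i + S i := by
  obtain ⟨k, rfl⟩ := Nat.exists_eq_add_of_le hi
  have e1 : 4 + k + 1 = (k + 1) + 4 := by omega
  have e2 : 4 + k = k + 4 := by omega
  have e3 : 4 + k - 3 = k + 1 := by omega
  rw [e3, e1, e2]
  have h1 : S (k + 1 + 4) = S (k + 4) + S (k + 3) + S (k + 2) := by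
    rw [S]
  have h2 : S (k + 4) = S (k + 3) + S (k + 2) + S (k + 1) := by
    rw [S]
  omega

theorem S_lt_succ {i : ℕ} (hi : 1 ≤ i) : S i < S (i + 1) := by
  rcases Nat.lt_or_ge i 3 with h | h
  · interval_cases i <;> decide
  · rw [S_rec h]
    have := S_pos (i := i - 1) (by omega)
    omega

/-- The sum of the squares of the terms. -/
def sq (A : Multiset ℕ) : ℕ := (A.map (fun x => x ^ 2)).sum

theorem sq_add (A B : Multiset ℕ) : sq (A + B) = sq A + sq B := by simp [sq]

theorem sq_le (A : Multiset ℕ) : sq A ≤ A.sum ^ 2 := by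
  induction A using Multiset.induction_on with
  | empty => simp [sq]
  | cons a A ih =>
    have : sq (a ::ₘ A) = a ^ 2 + sq A := by simp [sq]
    rw [this, Multiset.sum_cons]
    have h2 : (a + A.sum) ^ 2 = a ^ 2 + A.sum ^ 2 + 2 * (a * A.sum) := by ring
    rw [h2]
    omega

theorem move_sum {A B : Multiset ℕ} (h : Move A B) : B.sum = A.sum := by
  cases h with
  | rule1 M i hi =>
    simp only [Multiset.sum_add, Multiset.sum_singleton, Multiset.insert_eq_cons,
      Multiset.sum_cons, S_rec hi]
    omega
  | rule2 M => simp [S]; omega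
  | rule3 M => simp [S]; omega
  | rule4 M => simp [S]; omega
  | rule5 M => simp [S]; omega
  | rule6 M i hi =>
    simp only [Multiset.sum_add, Multiset.sum_singleton, Multiset.insert_eq_cons,
      Multiset.sum_cons, two_S hi]

theorem move_sq {A B : Multiset ℕ} (h : Move A B) : sq A < sq B := by
  cases h with
  | rule1 M i hi =>
    rw [sq_add, sq_add]
    have h1 := S_pos (i := i) (by omega)
    have h2 := S_pos (i := i - 1) (by omega)
    have h3 := S_pos (i := i - 2) (by omega)
    have : sq {S (i - 2), S (i - 1), S i} < sq {S (i + 1)} := by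
      simp only [sq, Multiset.insert_eq_cons, Multiset.map_cons, Multiset.map_singleton,
        Multiset.sum_cons, Multiset.sum_singleton, S_rec hi]
      have q1 : 0 < S i * S (i - 1) := Nat.mul_pos h1 h2
      nlinarith [Nat.zero_le (S i * S (i - 2)), Nat.zero_le (S (i - 1) * S (i - 2))]
    omega
  | rule2 M => simp [sq, S]; omega
  | rule3 M => simp [sq, S]; omega
  | rule4 M => simp [sq, S]; omega
  | rule5 M => simp [sq, S]; omega
  | rule6 M i hi =>
    rw [sq_add, sq_add]
    have h1 := two_S hi
    have h2 := S_lt_succ (i := i) (by omega)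
    have : sq {S i, S i} < sq {S (i + 1), S (i - 3)} := by
      simp only [sq, Multiset.insert_eq_cons, Multiset.map_cons, Multiset.map_singleton,
        Multiset.sum_cons, Multiset.sum_singleton]
      obtain ⟨d, hd⟩ := Nat.exists_eq_add_of_lt h2
      obtain ⟨e, he⟩ : ∃ e, S i = S (i - 3) + e := ⟨S i - S (i - 3), by omega⟩
      have hde : d + 1 = e := by omega
      rw [hd, he, ← hde]
      nlinarith
    omega

/-- Every position is won by exactly one of the players; here: by at least one. -/
theorem determined (A : Multiset ℕ) : Winning true A ∨ Winning false A := by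
  suffices H : ∀ k : ℕ, ∀ A : Multiset ℕ, A.sum ^ 2 - sq A = k →
      Winning true A ∨ Winning false A from H _ A rfl
  intro k
  induction k using Nat.strong_induction_on with
  | _ k ih =>
    intro A hA
    by_cases h : ∃ B, Move A B ∧ Winning false B
    · obtain ⟨B, hB, hw⟩ := h
      exact Or.inl (Winning.mover hB hw)
    · right
      refine Winning.other fun B hB => ?_
      have h1 := move_sum hB
      have h2 := move_sq hB
      have h3 := sq_le B
      rw [h1] at h3
      rcases ih (B.sum ^ 2 - sq B) (by rw [h1]; omega) B rfl with hw | hw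
      · exact hw
      · exact absurd ⟨B, hB, hw⟩ h

/-- Not both players can have winning strategies. -/
theorem not_both {b : Bool} {A : Multiset ℕ} (h : Winning b A) : ¬ Winning (!b) A := by
  induction h with
  | mover hm hB ih =>
    intro h'
    cases h' with
    | other hall => exact ih (hall _ hm)
  | other hall ih =>
    intro h'
    cases h' with
    | mover hm hB => exact ih _ hm hB

/-- The position with `a` ones, `b` twos, `c` fours and `d` sevens. -/
def pos (a b c d : ℕ) : Multiset ℕ :=
  Multiset.replicate a 1 + Multiset.replicate b 2 + Multiset.replicate c 4 +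
    Multiset.replicate d 7

theorem count_pos (a b c d x : ℕ) : (pos a b c d).count x =
    (if x = 1 then a else 0) + (if x = 2 then b else 0) + (if x = 4 then c else 0) +
      (if x = 7 then d else 0) := by
  simp only [pos, Multiset.count_add, Multiset.count_replicate, eq_comm]

theorem mem_pos {a b c d x : ℕ} (h : x ∈ pos a b c d) : x = 1 ∨ x = 2 ∨ x = 4 ∨ x = 7 := by
  have := Multiset.count_pos.mpr h
  rw [count_pos] at this
  by_contra hc
  push Not at hc
  obtain ⟨h1, h2, h4, h7⟩ := hc
  simp [h1, h2, h4, h7] at this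

theorem pos_add (a b c d a' b' c' d' : ℕ) :
    pos a b c d + pos a' b' c' d' = pos (a + a') (b + b') (c + c') (d + d') := by
  simp only [pos, Multiset.replicate_add]
  abel

/-- The multiset `M + A = B` determines `M`, if `A` and `B` are of the shape `pos`. -/
theorem eq_pos {M : Multiset ℕ} {a b c d a' b' c' d' : ℕ}
    (h : M + pos a' b' c' d' = pos a b c d) :
    a' ≤ a ∧ b' ≤ b ∧ c' ≤ c ∧ d' ≤ d ∧ M = pos (a - a') (b - b') (c - c') (d - d') := by
  have hc : ∀ x, M.count x + (pos a' b' c' d').count x = (pos a b c d).count x := by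
    intro x
    rw [← Multiset.count_add, h]
  have c1 := hc 1
  have c2 := hc 2
  have c4 := hc 4
  have c7 := hc 7
  simp only [count_pos] at c1 c2 c4 c7
  norm_num at c1 c2 c4 c7
  have l1 : a' ≤ a := by omega
  have l2 : b' ≤ b := by omega
  have l3 : c' ≤ c := by omega
  have l4 : d' ≤ d := by omega
  refine ⟨l1, l2, l3, l4, ?_⟩
  have h' : M + pos a' b' c' d' = pos (a - a') (b - b') (c - c') (d - d') + pos a' b' c' d' := by
    rw [h, pos_add, Nat.sub_add_cancel l1, Nat.sub_add_cancel l2, Nat.sub_add_cancel l3,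
      Nat.sub_add_cancel l4]
  exact add_right_cancel h'

theorem r2l : ({S 1, S 1, S 2} : Multiset ℕ) = pos 2 1 0 0 := by decide
theorem r2r : ({S 3} : Multiset ℕ) = pos 0 0 1 0 := by decide
theorem r3l : ({S 1, S 1} : Multiset ℕ) = pos 2 0 0 0 := by decide
theorem r3r : ({S 2} : Multiset ℕ) = pos 0 1 0 0 := by decide
theorem r4l : ({S 2, S 2} : Multiset ℕ) = pos 0 2 0 0 := by decide
theorem r5l : ({S 3, S 3} : Multiset ℕ) = pos 0 0 2 0 := by decide
theorem r5r : ({S 4, S 1} : Multiset ℕ) = pos 1 0 0 1 := by decide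
theorem r1l : ({S 1, S 2, S 3} : Multiset ℕ) = pos 1 1 1 0 := by decide
theorem r1r : ({S 4} : Multiset ℕ) = pos 0 0 0 1 := by decide

/-- The moves from a position with at most one seven and no two, or no four, simultaneously. -/
theorem moves_from {a b c d : ℕ} (hd : d ≤ 1) (hcd : c = 0 ∨ d = 0) {B : Multiset ℕ}
    (h : Move (pos a b c d) B) :
    (1 ≤ a ∧ 1 ≤ b ∧ 1 ≤ c ∧ B = pos (a - 1) (b - 1) (c - 1) (d + 1)) ∨
    (2 ≤ a ∧ 1 ≤ b ∧ B = pos (a - 2) (b - 1) (c + 1) d) ∨
    (2 ≤ a ∧ B = pos (a - 2) (b + 1) c d) ∨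
    (2 ≤ b ∧ B = pos a (b - 2) (c + 1) d) ∨
    (2 ≤ c ∧ B = pos (a + 1) b (c - 2) (d + 1)) := by
  generalize hA : pos a b c d = A at h
  cases h with
  | rule1 M i hi =>
    have hmem : S i ∈ pos a b c d := by rw [hA]; simp
    have hmem' : S (i - 1) ∈ pos a b c d := by rw [hA]; simp
    rcases Nat.lt_or_ge i 5 with h5 | h5
    · rcases Nat.lt_or_ge i 4 with h4 | h4
      · have : i = 3 := by omega
        subst this
        left
        have hA' : M + pos 1 1 1 0 = pos a b c d := by rw [hA, ← r1l]
        obtain ⟨l1, l2, l3, l4, hM⟩ := eq_pos hA'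
        refine ⟨l1, l2, l3, ?_⟩
        have : ({S (3 + 1)} : Multiset ℕ) = pos 0 0 0 1 := r1r
        rw [this, hM, pos_add]
        rfl
      · have : i = 4 := by omega
        subst this
        exfalso
        have h7 : 0 < (pos a b c d).count 7 := Multiset.count_pos.mpr hmem
        have h4 : 0 < (pos a b c d).count 4 := Multiset.count_pos.mpr hmem'
        rw [count_pos] at h7 h4
        norm_num at h7 h4
        omega
    · exfalso
      have := S_ge13 h5
      have := mem_pos hmem
      omega
  | rule2 M =>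
    right; left
    rw [r2l] at hA
    obtain ⟨l1, l2, l3, l4, hM⟩ := eq_pos hA.symm
    refine ⟨l1, l2, ?_⟩
    rw [r2r, hM, pos_add]
    rfl
  | rule3 M =>
    right; right; left
    rw [r3l] at hA
    obtain ⟨l1, l2, l3, l4, hM⟩ := eq_pos hA.symm
    refine ⟨l1, ?_⟩
    rw [r3r, hM, pos_add]
    rfl
  | rule4 M =>
    right; right; right; left
    rw [r4l] at hA
    obtain ⟨l1, l2, l3, l4, hM⟩ := eq_pos hA.symm
    refine ⟨l2, ?_⟩
    rw [r2r, hM, pos_add]
    rfl
  | rule5 M =>
    right; right; right; right
    rw [r5l] at hA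
    obtain ⟨l1, l2, l3, l4, hM⟩ := eq_pos hA.symm
    refine ⟨l3, ?_⟩
    rw [r5r, hM, pos_add]
    rfl
  | rule6 M i hi =>
    exfalso
    have hmem : S i ∈ pos a b c d := by rw [hA]; simp
    rcases Nat.lt_or_ge i 5 with h5 | h5
    · have : i = 4 := by omega
      subst this
      have h7 : (pos a b c d).count 7 = M.count 7 + 2 := by
        rw [hA, Multiset.count_add]
        rfl
      rw [count_pos] at h7
      norm_num at h7
      omega
    · have := S_ge13 h5
      have := mem_pos hmem
      omega

theorem move1 (a b c d : ℕ) : Move (pos (a + 1) (b + 1) (c + 1) d) (pos a b c (d + 1)) := by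
  have h := Move.rule1 (pos a b c d) 3 le_rfl
  have e1 : ({S (3 - 2), S (3 - 1), S 3} : Multiset ℕ) = pos 1 1 1 0 := r1l
  have e2 : ({S (3 + 1)} : Multiset ℕ) = pos 0 0 0 1 := r1r
  rw [e1, e2, pos_add, pos_add] at h
  exact h

theorem move2 (a b c d : ℕ) : Move (pos (a + 2) (b + 1) c d) (pos a b (c + 1) d) := by
  have h := Move.rule2 (pos a b c d)
  rw [r2l, r2r, pos_add, pos_add] at h
  exact h

theorem move3 (a b c d : ℕ) : Move (pos (a + 2) b c d) (pos a (b + 1) c d) := by
  have h := Move.rule3 (pos a b c d)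
  rw [r3l, r3r, pos_add, pos_add] at h
  exact h

theorem move5 (a b c d : ℕ) : Move (pos a b (c + 2) d) (pos (a + 1) b c (d + 1)) := by
  have h := Move.rule5 (pos a b c d)
  rw [r5l, r5r, pos_add, pos_add] at h
  exact h

/-- The key position `{1^{m+3}, 4}` is lost for the player to move. -/
theorem key (m : ℕ) : Winning false (pos (m + 3) 0 1 0) := by
  -- the only option is `{1^{m+1}, 2, 4}`
  suffices hZ : Winning true (pos (m + 1) 1 1 0) by
    refine Winning.other fun B hB => ?_
    rcases moves_from (by norm_num) (Or.inr rfl) hB with h | h | h | h | h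
    · omega
    · omega
    · rw [h.2]; exact hZ
    · omega
    · omega
  rcases determined (pos m 0 0 1) with hV | hV
  · -- `{1^m, 7}` is won by the mover, so its only option `{1^{m-2}, 2, 7}` is lost
    cases hV with
    | mover hm hw =>
      rcases moves_from (by norm_num) (Or.inl rfl) hm with h | h | h | h | h
      · omega
      · omega
      · obtain ⟨h2, rfl⟩ := h
        obtain ⟨k, rfl⟩ := Nat.exists_eq_add_of_le' h2
        have hQ : Winning false (pos k 1 0 1) := hw
        have hV' : Winning true (pos (k + 2) 0 0 1) := Winning.mover (move3 k 0 0 1) hQ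
        -- `{1^{k+1}, 4, 4}` is lost for the mover
        have hP : Winning false (pos (k + 1) 0 2 0) := by
          refine Winning.other fun B hB => ?_
          rcases moves_from (by norm_num) (Or.inr rfl) hB with h | h | h | h | h
          · omega
          · omega
          · obtain ⟨h3, rfl⟩ := h
            obtain ⟨j, rfl⟩ := Nat.exists_eq_add_of_le' (show 1 ≤ k by omega)
            exact Winning.mover (move5 j 1 0 0) hQ
          · omega
          · rw [h.2]; exact hV'
        exact Winning.mover (move2 (k + 1) 0 1 0) hP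
      · omega
      · omega
  · exact Winning.mover (move1 m 0 0 0) hV

/-- **Q1 of MP_7f8e47_co, answered affirmatively with `N = 7`.**  For every `n ≥ 7`, Player 2 has a
winning strategy in the Tribonacci game on `n` (and Player 1 has none).  In particular there is an
`N` with this property. -/
theorem result :
    (∀ n : ℕ, 7 ≤ n → Player2Wins n ∧ ¬ Player1Wins n) ∧
    ∃ N : ℕ, ∀ n ≥ N, Player2Wins n := by
  have H : ∀ n : ℕ, 7 ≤ n → Player2Wins n := by
    intro n hn
    obtain ⟨m, rfl⟩ := Nat.exists_eq_add_of_le' hn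
    have e : Multiset.replicate (m + 7) (S 1) = pos (m + 7) 0 0 0 := by
      simp [pos, S]
    unfold Player2Wins
    rw [e]
    refine Winning.other fun B hB => ?_
    rcases moves_from (by norm_num) (Or.inr rfl) hB with h | h | h | h | h
    · omega
    · omega
    · rw [h.2]
      exact Winning.mover (move2 (m + 3) 0 0 0) (key m)
    · omega
    · omega
  exact ⟨fun n hn => ⟨H n hn, not_both (H n hn)⟩, 7, H⟩

end Pool.Agent.Results.MP_7f8e47_co.PlayerTwoWins
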